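import Mathlib

namespace Pool.Agent.Results.MP_f4b4d0_co.Counterexample

/-- `S, T` partition `{0, …, 2 ^ n - 1}` with equal power sums of all orders `i < n`. -/
def HasP (n : ℕ) (S T : Finset ℕ) : Prop :=
  S ∪ T = Finset.range (2 ^ n) ∧ Disjoint S T ∧ ∀ i < n, ∑ s ∈ S, s ^ i = ∑ t ∈ T, t ^ i

/-- The defect `D (S, T)`. -/
def defect (n : ℕ) (S T : Finset ℕ) : ℤ := ∑ s ∈ S, (s : ℤ) ^ n - ∑ t ∈ T, (t : ℤ) ^ n

/-- The Thue–Morse class of parity `b`: the `k < 2 ^ n` whose binary digit sum is `b` mod `2`. -/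
def tm (n b : ℕ) : Finset ℕ := (Finset.range (2 ^ n)).filter fun k => (Nat.digits 2 k).sum % 2 = b

def mask : ℕ := 200161292303372993702133641116285294230

/-- For `n = 7` some partition with property `P_n` has a strictly smaller defect than the
Thue–Morse partition. -/
theorem result : ∃ (n : ℕ) (S T : Finset ℕ), 1 ≤ n ∧ HasP n S T ∧
    |defect n S T| < |defect n (tm n 0) (tm n 1)| := by
  refine ⟨7, (Finset.range 128).filter fun k => mask.testBit k = true,
    (Finset.range 128).filter fun k => ¬ mask.testBit k = true, by norm_num,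
    ⟨Finset.filter_union_filter_not_eq _ _, Finset.disjoint_filter_filter_not _ _ _, ?_⟩, ?_⟩
  · decide +kernel
  · decide +kernel

end Pool.Agent.Results.MP_f4b4d0_co.Counterexample
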